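import Pool.Agent.Lib.MP_b9b22b_co.Few.H91.Agree

/-!
Patterns given by lists of bit masks, with coordinates of different weights: a list `L` of pairs
(mask, coefficient) on `t` bits, and a map `p : Fin s → Fin t` which distributes `s` coordinates
over the `t` bits.  The final theorem turns such a pattern into graphs on `n` vertices with at most
`C n ^ (e / s)` nonpositive eigenvalues, `e` the largest weight of a negative mask.
-/

set_option autoImplicit false

namespace Pool.Agent.Lib.MP_b9b22b_co.Few.H72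

open Finset Module Pool.Agent.Lib.MP_b9b22b_co.Few.H91

/-- the value of a mask polynomial -/
def mval (L : List (ℕ × ℤ)) (N : ℕ) : ℤ :=
  (L.map fun x => if x.1 &&& N = x.1 then x.2 else 0).sum

/-- the coordinates that lie over the bits of a mask -/
def mset {s t : ℕ} (p : Fin s → Fin t) (a : ℕ) : Finset (Fin s) :=
  univ.filter fun i => a.testBit (p i).val

theorem mset_subset {s t : ℕ} (p : Fin s → Fin t) (a : ℕ) (ha : a < 2 ^ t) (S : Finset (Fin s)) :
    mset p a ⊆ S ↔ a &&& Nat.ofBits (fun b : Fin t => decide (∀ i, p i = b → i ∈ S)) = a := by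
  constructor
  · intro h
    refine Nat.eq_of_testBit_eq fun j => ?_
    rw [Nat.testBit_and]
    rcases lt_or_ge j t with hj | hj
    · rw [Nat.testBit_ofBits_lt _ _ hj]
      cases hb : a.testBit j
      · rfl
      · rw [Bool.true_and, decide_eq_true_eq]
        intro i hi
        apply h
        rw [mset, mem_filter]
        refine ⟨mem_univ i, ?_⟩
        rw [hi]
        exact hb
    · have h1 : a.testBit j = false :=
        Nat.testBit_lt_two_pow (ha.trans_le (Nat.pow_le_pow_right (by norm_num) hj))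
      rw [h1, Bool.false_and]
  · intro h i hi
    rw [mset, mem_filter] at hi
    have h1 : (a &&& Nat.ofBits (fun b : Fin t => decide (∀ i, p i = b → i ∈ S))).testBit
        (p i).val = true := by
      rw [h]
      exact hi.2
    rw [Nat.testBit_and, Nat.testBit_ofBits_lt _ _ (p i).isLt, Bool.and_eq_true,
      decide_eq_true_eq] at h1
    exact h1.2 i rfl

/-- the conditions on a list of masks, all decidable -/
structure IsMask (t : ℕ) (L : List (ℕ × ℤ)) : Prop where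
  lt : ∀ x ∈ L, x.1 < 2 ^ t
  zero_one : ∀ N < 2 ^ t, mval L N = 0 ∨ mval L N = 1
  top_zero : (L.map fun x => x.2).sum = 0
  top : (2 ^ t - 1, (1 : ℤ)) ∈ L
  bot : ∃ x ∈ L, x.2 < 0

theorem sum_get (L : List (ℕ × ℤ)) (f : ℕ × ℤ → ℤ) :
    ∑ j : Fin L.length, f (L.get j) = (L.map f).sum := by
  rw [← List.sum_ofFn]
  congr 1
  exact List.ofFn_getElem_eq_map L f

/-- a pattern from a list of masks -/
noncomputable def toPattern {s t : ℕ} (p : Fin s → Fin t) (L : List (ℕ × ℤ)) (h : IsMask t L) :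
    Pattern s L.length where
  T j := mset p (L.get j).1
  c j := (L.get j).2
  zero_one S := by
    have h0 : (∑ j : Fin L.length, if mset p (L.get j).1 ⊆ S then (L.get j).2 else 0) =
        mval L (Nat.ofBits (fun b : Fin t => decide (∀ i, p i = b → i ∈ S))) := by
      rw [mval, ← sum_get]
      refine sum_congr rfl fun j _ => ?_
      have h2 := mset_subset p (L.get j).1 (h.lt _ (L.get_mem j)) S
      by_cases h3 : mset p (L.get j).1 ⊆ S
      · rw [if_pos h3, if_pos (h2.1 h3)]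
      · rw [if_neg h3, if_neg (fun h4 => h3 (h2.2 h4))]
    rw [h0]
    exact h.zero_one _ (Nat.ofBits_lt_two_pow _)
  top_zero := by
    have h1 : ∀ j : Fin L.length, (if mset p (L.get j).1 ⊆ univ then (L.get j).2 else 0) =
        (fun x : ℕ × ℤ => x.2) (L.get j) := by
      intro j
      rw [if_pos (subset_univ _)]
    rw [sum_congr rfl fun j _ => h1 j, sum_get]
    exact h.top_zero
  top := (List.get_of_mem h.top).choose
  T_top := by
    rw [(List.get_of_mem h.top).choose_spec]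
    ext i
    simp [mset, Nat.testBit_two_pow_sub_one]
  c_top := by
    rw [(List.get_of_mem h.top).choose_spec]
  bot := (List.get_of_mem h.bot.choose_spec.1).choose
  c_bot := by
    rw [(List.get_of_mem h.bot.choose_spec.1).choose_spec]
    exact h.bot.choose_spec.2

theorem cost_le {s t : ℕ} (p : Fin s → Fin t) (L : List (ℕ × ℤ)) (h : IsMask t L) (e : ℕ)
    (he : ∀ x ∈ L, x.2 < 0 → (mset p x.1).card ≤ e) {q : ℕ} (hq : 1 ≤ q) :
    (toPattern p L h).cost q ≤ L.length * q ^ e := by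
  unfold Pattern.cost
  have h1 : ∀ j ∈ (univ : Finset (Fin L.length)),
      (if (toPattern p L h).c j < 0 then q ^ ((toPattern p L h).T j).card else 0) ≤ q ^ e := by
    intro j _
    split_ifs with hj
    · exact Nat.pow_le_pow_right hq (he (L.get j) (L.get_mem j) hj)
    · exact Nat.zero_le _
  refine (sum_le_card_nsmul _ _ _ h1).trans ?_
  rw [card_univ, Fintype.card_fin, smul_eq_mul]

/-- graphs on `n ≤ q ^ s` vertices with at most `m q ^ e` nonpositive eigenvalues -/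
theorem exists_graph {s t : ℕ} (p : Fin s → Fin t) (L : List (ℕ × ℤ)) (h : IsMask t L) (e : ℕ)
    (he : ∀ x ∈ L, x.2 < 0 → (mset p x.1).card ≤ e) {n k q : ℕ} (hq : 1 ≤ q) (hn : n ≤ q ^ s)
    (hk : L.length * q ^ e ≤ k) (hkn : k < n) :
    (∃ x ∈ eigSet (n - k) n, 1 ≤ x) ∧ ∃ x ∈ eigSet (k + 1) n, x ≤ -2 := by
  obtain ⟨G, h1, h2⟩ := (toPattern p L h).lam_ge hn ((cost_le p L h e he hq).trans hk) hkn
  exact ⟨⟨_, ⟨G, rfl⟩, h1⟩, ⟨_, ⟨Gᶜ, rfl⟩, h2⟩⟩

/-- the choice of `q` -/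
theorem exists_q {s : ℕ} (hs : 0 < s) (m e : ℕ) {n : ℕ} (hn : 1 ≤ n) :
    ∃ q : ℕ, 1 ≤ q ∧ n ≤ q ^ s ∧
      ((m * q ^ e : ℕ) : ℝ) ≤ (m * 2 ^ e : ℕ) * (n : ℝ) ^ ((e : ℝ) / s) := by
  have hn' : (1 : ℝ) ≤ n := by exact_mod_cast hn
  have hn0 : (0 : ℝ) ≤ n := by linarith
  have hs' : (s : ℝ) ≠ 0 := by exact_mod_cast hs.ne'
  set r : ℝ := (n : ℝ) ^ (1 / s : ℝ) with hr
  have hr1 : 1 ≤ r := Real.one_le_rpow hn' (by positivity)
  have hr7 : r ^ s = n := by
    rw [hr, ← Real.rpow_natCast, ← Real.rpow_mul hn0]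
    rw [one_div, inv_mul_cancel₀ hs', Real.rpow_one]
  have hr3 : r ^ e = (n : ℝ) ^ ((e : ℝ) / s) := by
    rw [hr, ← Real.rpow_natCast, ← Real.rpow_mul hn0]
    congr 1
    ring
  have h0 : (1 : ℝ) ≤ (⌈r⌉₊ : ℝ) := hr1.trans (Nat.le_ceil r)
  refine ⟨⌈r⌉₊, by exact_mod_cast h0, ?_, ?_⟩
  · have h1 : r ≤ (⌈r⌉₊ : ℝ) := Nat.le_ceil r
    have h2 : (n : ℝ) ≤ ((⌈r⌉₊ ^ s : ℕ) : ℝ) := by
      push_cast
      rw [← hr7]
      exact pow_le_pow_left₀ (by linarith) h1 s
    exact_mod_cast h2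
  · rw [← hr3]
    push_cast
    have h1 : (⌈r⌉₊ : ℝ) ≤ 2 * r := by
      have := Nat.ceil_lt_add_one (by linarith : (0 : ℝ) ≤ r)
      linarith
    have h3 : (⌈r⌉₊ : ℝ) ^ e ≤ (2 * r) ^ e := pow_le_pow_left₀ (by linarith) h1 e
    rw [mul_assoc, ← mul_pow]
    exact mul_le_mul_of_nonneg_left h3 (Nat.cast_nonneg m)

/-- `M_i(n) ≥ 1` as soon as `n - i ≥ C n ^ (e/s)`. -/
theorem exists_ge_one {s t : ℕ} (hs : 0 < s) (p : Fin s → Fin t) (L : List (ℕ × ℤ))
    (h : IsMask t L) (e : ℕ) (he : ∀ x ∈ L, x.2 < 0 → (mset p x.1).card ≤ e) {n i : ℕ}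
    (hi : 1 ≤ i) (hin : i ≤ n)
    (hc : ((L.length * 2 ^ e : ℕ) : ℝ) * (n : ℝ) ^ ((e : ℝ) / s) ≤ (n : ℝ) - i) :
    ∃ x ∈ eigSet i n, 1 ≤ x := by
  obtain ⟨q, hq, h1, h2⟩ := exists_q hs L.length e (hi.trans hin)
  have h3 : L.length * q ^ e ≤ n - i := by
    have h4 : ((L.length * q ^ e : ℕ) : ℝ) ≤ ((n - i : ℕ) : ℝ) := by
      rw [Nat.cast_sub hin]
      exact h2.trans hc
    exact_mod_cast h4
  have h4 := (exists_graph p L h e he hq h1 h3 (by omega)).1
  rwa [show n - (n - i) = i by omega] at h4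

/-- `m_i(n) ≤ -2` as soon as `i ≥ C n ^ (e/s) + 1`. -/
theorem exists_le_neg_two {s t : ℕ} (hs : 0 < s) (p : Fin s → Fin t) (L : List (ℕ × ℤ))
    (h : IsMask t L) (e : ℕ) (he : ∀ x ∈ L, x.2 < 0 → (mset p x.1).card ≤ e) {n i : ℕ}
    (hin : i ≤ n)
    (hc : ((L.length * 2 ^ e : ℕ) : ℝ) * (n : ℝ) ^ ((e : ℝ) / s) + 1 ≤ (i : ℝ)) :
    ∃ x ∈ eigSet i n, x ≤ -2 := by
  have hi : 1 ≤ i := by
    have h1 : 0 ≤ ((L.length * 2 ^ e : ℕ) : ℝ) * (n : ℝ) ^ ((e : ℝ) / s) := by positivity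
    have h2 : (1 : ℝ) ≤ i := by linarith
    exact_mod_cast h2
  obtain ⟨q, hq, h1, h2⟩ := exists_q hs L.length e (hi.trans hin)
  have h3 : L.length * q ^ e ≤ i - 1 := by
    have h4 : ((L.length * q ^ e : ℕ) : ℝ) ≤ ((i - 1 : ℕ) : ℝ) := by
      rw [Nat.cast_sub hi]
      push_cast at h2 hc ⊢
      linarith
    exact_mod_cast h4
  have h4 := (exists_graph p L h e he hq h1 h3 (by omega)).2
  rwa [show i - 1 + 1 = i by omega] at h4

end Pool.Agent.Lib.MP_b9b22b_co.Few.H72
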